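import Mathlib

set_option autoImplicit false

namespace Pool.Agent.Results.MP_f42bc2_nt.Closed

open Zsqrtd

/-- The weighted norm `f_{𝔭,c}` on `ℤ[√2]`, the ring of integers of `ℚ(√2)`, for the prime
`𝔭 = (√2)` of norm `2`: `|N α| (c / 2) ^ v_𝔭(α)` for `α ≠ 0`, and `0` at `0`. -/
noncomputable def wnorm (c : ℝ) (α : ℤ√2) : ℝ :=
  if α = 0 then 0 else |(α.norm : ℝ)| * (c / 2) ^ multiplicity (sqrtd : ℤ√2) α

/-- Euclidean functions, conditions (i), (ii), (iii). -/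
def IsEuclideanFn (f : ℤ√2 → ℝ) : Prop :=
  (∀ t : ℝ, 0 ≤ t → (Set.range f ∩ Set.Icc 0 t).Finite) ∧ (∀ r, f r = 0 ↔ r = 0) ∧
    ∀ a b : ℤ√2, b ≠ 0 → ∃ q, f (a - b * q) < f b

/-- The Euclidean window `w(𝔭)`. -/
def window : Set ℝ := {c | 0 < c ∧ IsEuclideanFn (wnorm c)}

lemma N0 (a : ℤ√2) : a.norm = 0 ↔ a = 0 := norm_eq_zero (fun n h => by
  have : n ≤ 1 := by nlinarith
  have : -1 ≤ n := by nlinarith
  interval_cases n <;> omega) a

lemma two_eq (a : ℤ√2) : wnorm 2 a = |(a.norm : ℝ)| := by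
  unfold wnorm; split_ifs with h <;> simp [*]

lemma rnd (m D : ℤ) (hD : 0 < D) : ∃ q r : ℤ, m = D * q + r ∧ 4 * r ^ 2 ≤ D ^ 2 := by
  refine ⟨(2 * m + D) / (2 * D), m - D * ((2 * m + D) / (2 * D)), by ring, ?_⟩
  have h1 := Int.mul_ediv_add_emod (2 * m + D) (2 * D)
  have h2 := Int.emod_nonneg (2 * m + D) (show 2 * D ≠ 0 by omega)
  have h3 := Int.emod_lt_of_pos (2 * m + D) (show 0 < 2 * D by omega)
  nlinarith

lemma two_mem : 2 ∈ window := by
  refine ⟨two_pos, fun t _ => ?_, fun r => by simp [two_eq, N0], fun a b hb => ?_⟩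
  · refine ((Set.finite_Icc (0 : ℤ) ⌈t⌉).image (Int.cast : ℤ → ℝ)).subset ?_
    rintro _ ⟨⟨a, rfl⟩, -, h⟩
    rw [two_eq] at h ⊢
    exact ⟨|a.norm|, ⟨abs_nonneg _, by exact_mod_cast (show ((|a.norm| : ℤ) : ℝ) ≤ ⌈t⌉ by
      push_cast; exact h.trans (Int.le_ceil t))⟩, by simp⟩
  · have h0 : b.norm ≠ 0 := mt (N0 b).1 hb
    set w := a * star b * (b.norm : ℤ√2) with hw
    have hD : 0 < b.norm ^ 2 := by positivity
    obtain ⟨q1, r1, a1, a2⟩ := rnd w.re _ hD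
    obtain ⟨q2, r2, b1, b2⟩ := rnd w.im _ hD
    refine ⟨⟨q1, q2⟩, ?_⟩
    have e1 : (a - b * ⟨q1, q2⟩) * star b * (b.norm : ℤ√2) = ⟨r1, r2⟩ := by
      rw [sub_mul, sub_mul, ← hw, mul_right_comm b, ← norm_eq_mul_conj]
      ext <;> simp <;> linarith
    have e2 := congrArg Zsqrtd.norm e1
    rw [Zsqrtd.norm_mul, Zsqrtd.norm_mul, norm_conj, norm_intCast, norm_def ⟨r1, r2⟩] at e2
    rw [two_eq, two_eq]
    norm_cast
    refine lt_of_mul_lt_mul_right ?_ (show 0 ≤ |b.norm| ^ 3 by positivity)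
    have e3 : |(a - b * ⟨q1, q2⟩).norm| * |b.norm| ^ 3 = |r1 * r1 - 2 * r2 * r2| := by
      rw [← e2, abs_mul, abs_mul, abs_mul]; ring
    rw [e3, ← pow_succ', show 3 + 1 = 2 * 2 from rfl, pow_mul, sq_abs, abs_lt]
    constructor <;> nlinarith [pow_pos hD 2]

lemma real_bd {t u v : ℝ} (t0 : 0 < t) (t1 : t ≤ 1 / 24) (h1 : 1 / 2 ≤ |u| * |v|)
    (h2 : 1 / 2 ≤ |u - 1| * |v - 1|) (h3 : 2 * t ≤ |u + t|) (h4 : |u + t| ≤ 4) :
    1 / 288 ≤ |u + t| * |v - 1 - t| := by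
  have a1 : |u| ≤ |u + t| + t := by
    have := abs_sub (u + t) t; rwa [add_sub_cancel_right, abs_of_pos t0] at this
  have a2 : |u - 1| ≤ 6 := by have := abs_sub u 1; rw [abs_one] at this; linarith
  have a3 : |v - 1| ≤ |v - 1 - t| + t := by
    have := abs_add_le (v - 1 - t) t; rwa [sub_add_cancel, abs_of_pos t0] at this
  have a4 : |v| ≤ |v - 1| + 1 := by have := abs_add_le (v - 1) 1; rwa [sub_add_cancel, abs_one] at this
  have p1 := abs_nonneg u
  have p2 := abs_nonneg v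
  have p3 := abs_nonneg (v - 1)
  have a5 : 2 / 3 * |u| ≤ |u + t| := by linarith
  by_cases h : 4 ≤ |v|
  · have := mul_le_mul a5 (show 1 / 2 * |v| ≤ |v - 1 - t| by linarith) (by positivity) (abs_nonneg _)
    nlinarith
  · have b1 : 1 / 8 ≤ |u| := by nlinarith
    have b2 : 1 / 12 ≤ |v - 1| := by nlinarith
    have := mul_le_mul (show 1 / 12 ≤ |u + t| by linarith) (show 1 / 24 ≤ |v - 1 - t| by linarith)
      (by positivity) (abs_nonneg _)
    linarith

noncomputable def σ : ℤ√2 →+* ℝ := toReal (by norm_num)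

lemma σ_s : σ sqrtd = √2 := by simp [σ]

lemma N_eq (z : ℤ√2) : (z.norm : ℝ) = σ z * σ (star z) := by
  rw [← map_mul, ← norm_eq_mul_conj, map_intCast]

lemma N_s : (sqrtd : ℤ√2).norm = -2 := by simp [norm_def]

lemma nd {z : ℤ√2} (h : sqrtd ∣ z - 1) : ¬ sqrtd ∣ z := fun h' => by
  obtain ⟨w, hw⟩ := (dvd_sub_right h').1 h
  have := congrArg Zsqrtd.norm hw
  rw [Zsqrtd.norm_mul, N_s, norm_one] at this
  omega

lemma one_le {z : ℤ√2} (h : sqrtd ∣ z - 1) : 1 ≤ |σ z| * |σ (star z)| := by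
  rw [← abs_mul, ← N_eq]
  have : z ≠ 0 := by rintro rfl; exact nd h (dvd_zero _)
  exact_mod_cast Int.one_le_abs (mt (N0 z).1 this)

lemma key {E γ : ℤ√2} (hE : E * star E = 1) (h1 : E - 1 = sqrtd * γ) (h2 : sqrtd ∣ γ) (h3 : 25 ≤ σ E)
    (z : ℤ√2) (hz : E - 1 ∣ z - (γ + 1)) : |((E - 1).norm : ℝ)| / 288 ≤ |(z.norm : ℝ)| := by
  have r0 : (0 : ℝ) < √2 := by positivity
  have r1 : √2 * √2 = 2 := Real.mul_self_sqrt (by norm_num)
  have od : ∀ z, E - 1 ∣ z - (γ + 1) → sqrtd ∣ z - 1 := fun z hz => by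
    have := dvd_add ((Dvd.intro _ h1.symm).trans hz) h2
    rwa [show z - (γ + 1) + γ = z - 1 by ring] at this
  let U : (ℤ√2)ˣ := ⟨E, star E, hE, by rw [mul_comm, hE]⟩
  have per : ∀ m : ℤ, E - 1 ∣ ((U ^ m : (ℤ√2)ˣ) : ℤ√2) - 1 ∧ σ (U ^ m : (ℤ√2)ˣ) = σ E ^ m ∧
      ((U ^ m : (ℤ√2)ˣ) : ℤ√2).norm = 1 := by
    intro m
    refine ⟨?_, (congrArg Units.val (map_zpow (Units.map σ.toMonoidHom) U m)).trans
      (Units.val_zpow_eq_zpow_val _ _), ?_⟩
    · rw [← Ideal.mem_span_singleton, ← Ideal.Quotient.eq, map_one]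
      have : Units.map (Ideal.Quotient.mk (Ideal.span {E - 1})).toMonoidHom U = 1 :=
        Units.ext ((Ideal.Quotient.eq).2 (Ideal.mem_span_singleton_self _))
      have h := congrArg Units.val (map_zpow (Units.map (Ideal.Quotient.mk (Ideal.span {E - 1})).toMonoidHom) U m)
      rwa [this, one_zpow] at h
    · have : Units.map (normMonoidHom (d := 2)) U = 1 := Units.ext (by
        have := norm_eq_mul_conj E
        rw [hE] at this
        exact (show E.norm = 1 by exact_mod_cast this))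
      have h := congrArg Units.val (map_zpow (Units.map (normMonoidHom (d := 2))) U m)
      rwa [this, one_zpow] at h
  have z0 : 0 < |σ z| := by
    have := one_le (od z hz)
    by_contra h
    rw [le_antisymm (not_lt.1 h) (abs_nonneg _)] at this
    linarith
  set e := σ E with he
  obtain ⟨m, m1, m2⟩ := exists_mem_Ico_zpow (x := 4 * (e - 1) / |σ z|) (y := e)
    (div_pos (by linarith) z0) (by linarith)
  obtain ⟨p1, p2, p3⟩ := per m
  set w := ((U ^ m : (ℤ√2)ˣ) : ℤ√2) * z with hw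
  have w1 : w.norm = z.norm := by rw [hw, Zsqrtd.norm_mul, p3, one_mul]
  have w2 : |σ w| = e ^ m * |σ z| := by rw [hw, map_mul, p2, abs_mul, abs_of_pos (zpow_pos (by linarith) _)]
  obtain ⟨q, hq⟩ : E - 1 ∣ w - (γ + 1) := by
    have := dvd_add (p1.mul_right z) hz
    rwa [show (((U ^ m : (ℤ√2)ˣ) : ℤ√2) - 1) * z + (z - (γ + 1)) = w - (γ + 1) by ring] at this
  rw [le_div_iff₀ z0, ← w2] at m1
  rw [div_lt_iff₀ z0, zpow_add_one₀ (by linarith), mul_right_comm, ← w2] at m2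
  have g1 := one_le (z := 1 + sqrtd * q) (by simp)
  have g2 := one_le (z := 1 + sqrtd * q - sqrtd) ⟨q - 1, by ring⟩
  have s1 : σ (star sqrtd) = -√2 := by simp [σ]
  have e1 : e * σ (star E) = 1 := by rw [he, ← map_mul, hE, map_one]
  have e2 := congrArg σ h1
  have e3 := congrArg (fun x => σ (star x)) h1
  have e4 := congrArg σ hq
  have e5 := congrArg (fun x => σ (star x)) hq
  simp only [star_sub, star_add, star_mul', star_one, map_sub, map_add, map_mul, map_one, σ_s, s1,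
    ← he] at e2 e3 e4 e5 g1 g2
  have e0 : e - 1 ≠ 0 := by linarith
  have e6 : σ (star E) = 1 / e := by field_simp; linarith
  set u := (1 + √2 * σ q) / √2 with hu
  set v := (1 + -√2 * σ (star q)) / -√2 with hv
  have x1 : σ w = (e - 1) * (u + 1 / (e - 1)) := by
    have : σ γ = (e - 1) / √2 := by field_simp; linarith
    rw [hu, sub_eq_iff_eq_add.1 e4, this]; field_simp; ring
  have x2 : σ (star w) = (σ (star E) - 1) * (v - 1 - 1 / (e - 1)) := by
    have : σ (star γ) = (σ (star E) - 1) / -√2 := by field_simp; linarith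
    rw [hv, sub_eq_iff_eq_add.1 e5, this, e6]; field_simp; ring
  have ab : |√2| * |-√2| = 2 := by rw [abs_neg, abs_of_pos r0, r1]
  have y := real_bd (t := 1 / (e - 1)) (u := u) (v := v) (div_pos one_pos (by linarith))
    (one_div_le_one_div_of_le (by norm_num) (by linarith))
    (by rw [hu, hv, abs_div, abs_div, div_mul_div_comm, ab]; linarith)
    (by rw [hu, hv, div_sub_one r0.ne', div_sub_one (by linarith), abs_div, abs_div, div_mul_div_comm, ab]
        linarith) ?_ ?_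
  · rw [← w1, N_eq, N_eq w, x1, x2, star_sub, star_one, map_sub, map_sub, map_one, ← he, mul_mul_mul_comm,
      abs_mul (_ * _), abs_mul (u + _), div_eq_mul_one_div]
    exact mul_le_mul_of_nonneg_left y (abs_nonneg _)
  · rw [x1, abs_mul, abs_of_pos (show 0 < e - 1 by linarith)] at m2
    rw [mul_one_div, div_le_iff₀ (by linarith)]
    nlinarith [abs_nonneg (u + 1 / (e - 1))]
  · rw [x1, abs_mul, abs_of_pos (show 0 < e - 1 by linarith)] at m1
    nlinarith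

lemma pw (j : ℕ) : (sqrtd : ℤ√2) ^ (j + 1) ∣ (1 + sqrtd) ^ 2 ^ j - 1 := by
  induction j with
  | zero => simp
  | succ j ih =>
    rw [pow_succ 2, pow_mul, show ∀ x : ℤ√2, x ^ 2 - 1 = (x - 1) * (x - 1 + sqrtd * sqrtd) from fun x => by
      rw [dmuld]; push_cast; ring, pow_succ]
    exact mul_dvd_mul ih (dvd_add ((dvd_pow_self _ (by omega)).trans ih) (dvd_mul_right _ _))

lemma ge_two {c : ℝ} (hc : c ∈ window) : 2 ≤ c := by
  by_contra h
  have c0 : 0 < c / 2 := by linarith [hc.1]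
  have c1 : c / 2 < 1 := by linarith
  obtain ⟨j, hj⟩ := exists_pow_lt_of_lt_one (show (0 : ℝ) < 1 / 288 by norm_num) c1
  set E : ℤ√2 := (1 + sqrtd) ^ 2 ^ (j + 2) with hE
  have h1 := pw (j + 2)
  obtain ⟨γ, hγ⟩ := h1
  have h2 : 25 ≤ σ E := by
    have a1 : (12 / 5 : ℝ) ≤ 1 + √2 := by
      have := Real.le_sqrt_of_sq_le (show (7 / 5 : ℝ) ^ 2 ≤ 2 by norm_num); linarith
    rw [hE, map_pow, map_add, map_one, σ_s]
    calc (25 : ℝ) ≤ (12 / 5) ^ 4 := by norm_num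
      _ ≤ (12 / 5) ^ 2 ^ (j + 2) := pow_le_pow_right₀ (by norm_num) (by
        have := Nat.one_le_two_pow (n := j); rw [pow_add]; omega)
      _ ≤ _ := pow_le_pow_left₀ (by norm_num) a1 _
  have h3 : E * star E = 1 := by
    rw [hE, star_pow, ← mul_pow, pow_succ' 2, pow_mul, show ((1 + sqrtd) * star (1 + sqrtd) : ℤ√2) ^ 2 = 1 by decide,
      one_pow]
  have b0 : E - 1 ≠ 0 := fun h => by
    rw [sub_eq_zero.1 h, map_one] at h2; linarith
  have n0 : 0 < |((E - 1).norm : ℝ)| := abs_pos.2 (by exact_mod_cast mt (N0 _).1 b0)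
  obtain ⟨q, hq⟩ := hc.2.2.2 (sqrtd ^ (j + 2) * γ + 1) _ b0
  have h4 : E - 1 = sqrtd * (sqrtd ^ (j + 2) * γ) := by rw [hγ]; ring
  have h5 : (sqrtd : ℤ√2) ∣ sqrtd ^ (j + 2) * γ := (dvd_pow_self _ (by omega)).mul_right _
  have h6 := key h3 h4 h5 h2 (sqrtd ^ (j + 2) * γ + 1 - (E - 1) * q) ⟨-q, by ring⟩
  have h7 : ¬ sqrtd ∣ sqrtd ^ (j + 2) * γ + 1 - (E - 1) * q :=
    nd (by rw [h4]; exact ⟨sqrtd ^ (j + 1) * γ - sqrtd ^ (j + 2) * γ * q, by ring⟩)
  rw [wnorm, wnorm, if_neg (by intro h; exact h7 (h ▸ dvd_zero _)), if_neg b0, multiplicity_eq_zero.2 h7,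
    pow_zero, mul_one] at hq
  have fin : FiniteMultiplicity (sqrtd : ℤ√2) (E - 1) := by
    refine ⟨(E - 1).norm.natAbs, fun h => ?_⟩
    have a1 := map_dvd (normMonoidHom (d := 2)) h
    rw [map_pow] at a1
    have a2 := Nat.le_of_dvd (Int.natAbs_pos.2 (mt (N0 _).1 b0)) (Int.natAbs_dvd_natAbs.2 a1)
    rw [Int.natAbs_pow, show normMonoidHom (sqrtd : ℤ√2) = -2 from N_s] at a2
    have := Nat.lt_two_pow_self (n := (E - 1).norm.natAbs + 1)
    simp at a2
    omega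
  have h8 := pow_le_pow_of_le_one c0.le c1.le (fin.le_multiplicity_of_pow_dvd (k := j)
    ⟨sqrtd ^ 3 * γ, by rw [hγ]; ring⟩)
  nlinarith [mul_le_mul_of_nonneg_left (h8.trans hj.le) n0.le]

/-- For `K = ℚ(√2)` and `𝔭 = (√2)` the Euclidean window has least element `2 = N𝔭`, so it is not an
open subset of `(1, ∞)`. -/
theorem result : IsLeast window 2 ∧ ¬ IsOpen ((↑) ⁻¹' window : Set (Set.Ioi (1 : ℝ))) ∧ ¬ IsOpen window := by
  have h : ¬ IsOpen (Set.Ioi 1 ∩ window) := fun h => by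
    obtain ⟨ε, h1, h2⟩ := Metric.isOpen_iff.1 h 2 ⟨by norm_num, two_mem⟩
    have := ge_two (h2 (show 2 - ε / 2 ∈ Metric.ball 2 ε by
      rw [Metric.mem_ball, Real.dist_eq, abs_lt]; constructor <;> linarith)).2
    linarith
  refine ⟨⟨two_mem, fun _ => ge_two⟩, fun h' => h ?_, fun h' => h (isOpen_Ioi.inter h')⟩
  simpa using isOpen_Ioi.isOpenMap_subtype_val _ h'

end Pool.Agent.Results.MP_f42bc2_nt.Closed
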